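import Pool.Agent.Work.MP_215640_nt.U.Final
import Pool.Agent.Work.MP_215640_nt.Q.WordQ

/-!
Almost all orbits of the juggler map attain almost bounded values: the set of the `n` whose juggler
sequence has a term `≤ C` has lower logarithmic density at least `1 - 3 / sqrt (log log C)`, for all
large `C`.
-/

set_option autoImplicit false

namespace Pool.Agent.Results.MP_215640_nt.AlmostBounded

open Filter Finset N55eda7c2

open Classical in
theorem result :
    ∀ᶠ C : ℝ in atTop, ∀ᶠ x : ℕ in atTop,
      (1 - 3 / Real.sqrt (Real.log (Real.log C))) * Real.log x ≤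
        ∑ n ∈ (Icc 1 x).filter (fun n : ℕ => ∃ k : ℕ, ((jugglerStep^[k] n : ℕ) : ℝ) ≤ C),
          (1 : ℝ) / n :=
  Pool.Agent.Work.MP_215640_nt.s1_main Pool.Agent.Work.MP_215640_nt.Q.word_thm

end Pool.Agent.Results.MP_215640_nt.AlmostBounded
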