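import Pool.Agent.Work.MP_215640_nt.R.DensFinal
import Pool.Agent.Work.MP_215640_nt.Q.WordQ

/-!
Every set of natural numbers which is eventually invariant under the juggler map has a logarithmic
density, which is positive if the set is infinite.

So the juggler conjecture holds if and only if it holds for logarithmically almost all integers.
-/

set_option autoImplicit false

namespace Pool.Agent.Results.MP_215640_nt.LogDensity

open Filter Finset N55eda7c2

open Classical in
theorem result (G : Set ℕ) (hG : ∀ᶠ n : ℕ in atTop, (jugglerStep n ∈ G ↔ n ∈ G)) :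
    ∃ D : ℝ, Tendsto (fun x : ℕ =>
      (∑ n ∈ (Icc 1 x).filter (fun n => n ∈ G), (1 : ℝ) / n) / Real.log x) atTop (nhds D) ∧
      (G.Infinite → 0 < D) :=
  Pool.Agent.Work.MP_215640_nt.dens_main Pool.Agent.Work.MP_215640_nt.Q.word_thm G hG

end Pool.Agent.Results.MP_215640_nt.LogDensity
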