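import Pool.Agent.Work.MP_215640_nt.R.NatFinal
import Pool.Agent.Work.MP_215640_nt.Q.WordQ

/-!
For every `ε > 0`, almost all `n` in the sense of natural density have a term of their juggler sequence
which is at most `exp ((log log n) ^ (1 + ε))`.
-/

set_option autoImplicit false

namespace Pool.Agent.Results.MP_215640_nt.NaturalDensity

open Filter Finset N55eda7c2

open Classical in
theorem result (ε : ℝ) (hε : 0 < ε) :
    Tendsto (fun x : ℕ => (((range x).filter (fun n : ℕ =>
      ∃ k : ℕ, ((jugglerStep^[k] n : ℕ) : ℝ) ≤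
        Real.exp (Real.log (Real.log n) ^ (1 + ε)))).card : ℝ) / x) atTop (nhds 1) :=
  Pool.Agent.Work.MP_215640_nt.nat_main Pool.Agent.Work.MP_215640_nt.Q.word_thm ε hε

end Pool.Agent.Results.MP_215640_nt.NaturalDensity
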