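import Pool.Agent.Work.MP_215640_nt.S.ShortPat

/-!
Parity words of juggler sequences in short intervals: for every `k` there is `c > 0` such that every
parity word of length `k` is followed by a proportion `2 ^ (-k)` of the starting values in every
interval `[N, N + H)` with `N ^ (1 - c) ≤ H ≤ N`, uniformly in `H`.
-/

set_option autoImplicit false

namespace Pool.Agent.Results.MP_215640_nt.ShortIntervals

open Filter Finset N55eda7c2

open Classical in
theorem result (k : ℕ) (w : ℕ → Prop) :
    ∃ c : ℝ, 0 < c ∧ c < 1 ∧ ∀ ε : ℝ, 0 < ε → ∀ᶠ N : ℕ in atTop, ∀ H : ℕ,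
      (N : ℝ) ^ (1 - c) ≤ H → H ≤ N →
      |(((Ico N (N + H)).filter
          (fun n : ℕ => ∀ j < k, (Odd (jugglerStep^[j] n) ↔ w j))).card : ℝ)
        - (1 / 2) ^ k * H| ≤ ε * H :=
  Pool.Agent.Work.MP_215640_nt.short_words k w

end Pool.Agent.Results.MP_215640_nt.ShortIntervals
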